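import Pool.Agent.X184.SS.Stm

/-! Part SS_BASE of the project SS (helper184). A direct gliding hump: sums of `p` vectors with
supremum norm at most two and `p` coordinates of absolute value at least one. -/

set_option autoImplicit false

namespace Pool.Agent.X192.SS

open Finset Pool.Agent.X184.SS

theorem single_mem (hU : S_UNI) (n a : ℕ) : ({a} : Finset ℕ) ∈ Sch n := by
  induction n with
  | zero => show ({a} : Finset ℕ).card ≤ 1; simp
  | succ n ih =>
    have h := hU n 1 (fun _ => {a}) (fun _ => ih)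
      (fun i j hij => by omega) (fun _ b _ => by omega)
    have e : (univ : Finset (Fin 1)).biUnion (fun _ => ({a} : Finset ℕ)) = {a} := by
      ext b; simp
    rwa [e] at h

theorem many_mem (hU : S_UNI) (n : ℕ) (T : Finset ℕ) (hT : ∀ t ∈ T, T.card ≤ t) :
    T ∈ Sch (n + 1) := by
  have h := hU n T.card (fun i => {T.orderEmbOfFin rfl i}) (fun i => single_mem hU n _)
    (fun i j hij a ha b hb => by
      rw [mem_singleton] at ha hb
      subst ha; subst hb
      exact (T.orderEmbOfFin rfl).strictMono hij)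
    (fun i a ha => by
      rw [mem_singleton] at ha
      subst ha
      have := hT _ (T.orderEmbOfFin_mem rfl i)
      omega)
  have e : (univ : Finset (Fin T.card)).biUnion (fun i => ({T.orderEmbOfFin rfl i} : Finset ℕ))
      = T := by
    ext b
    simp only [mem_biUnion, mem_univ, mem_singleton, true_and]
    constructor
    · rintro ⟨i, rfl⟩
      exact T.orderEmbOfFin_mem rfl i
    · intro hb
      have : b ∈ Set.range (T.orderEmbOfFin rfl) := by
        rw [Finset.range_orderEmbOfFin]; exact hb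
      obtain ⟨i, hi⟩ := this
      exact ⟨i, hi.symm⟩
  rwa [e] at h

theorem exists_vanish {Z : Submodule ℝ (ℕ → ℝ)} (hZ : ¬ FiniteDimensional ℝ Z) (M : ℕ) :
    ∃ y ∈ Z, y ≠ 0 ∧ ∀ j < M, y j = 0 := by
  by_contra hcon
  push Not at hcon
  apply hZ
  set φ : Z →ₗ[ℝ] (Fin M → ℝ) :=
    (LinearMap.funLeft ℝ ℝ (fun i : Fin M => (i : ℕ))) ∘ₗ Z.subtype with hφ
  have hinj : Function.Injective φ := by
    rw [← LinearMap.ker_eq_bot, LinearMap.ker_eq_bot']
    rintro ⟨y, hy⟩ h0
    by_contra hne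
    have hy0 : y ≠ 0 := fun e => hne (by simp [e])
    obtain ⟨j, hj, hj'⟩ := hcon y hy hy0
    exact hj' (congrFun h0 ⟨j, hj⟩)
  exact Module.Finite.of_injective φ hinj

theorem small_tail (hU : S_UNI) {Z : Submodule ℝ (ℕ → ℝ)} {n : ℕ} (hT : Tails Z n) {z : ℕ → ℝ}
    (hz : z ∈ Z) {η : ℝ} (hη : 0 < η) : ∃ N : ℕ, ∀ t, N ≤ t → |z t| ≤ η := by
  obtain ⟨N, hN⟩ := hT z hz η hη
  refine ⟨N, fun t ht => ?_⟩
  have h := hN {t} (single_mem hU (n + 1) t) (fun a ha => by
    rw [mem_singleton] at ha; subst ha; exact ht)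
  simpa using h

/-- a vector of supremum norm one attained, vanishing before `M` -/
theorem exists_peak (hU : S_UNI) {Z : Submodule ℝ (ℕ → ℝ)} {n : ℕ} (hZ : ¬ FiniteDimensional ℝ Z)
    (hT : Tails Z n) (M : ℕ) :
    ∃ y ∈ Z, (∀ j < M, y j = 0) ∧ (∀ j, |y j| ≤ 1) ∧ ∃ t, M ≤ t ∧ |y t| = 1 := by
  obtain ⟨y, hy, hy0, hyM⟩ := exists_vanish hZ M
  obtain ⟨j0, hj0⟩ : ∃ j, y j ≠ 0 := by
    by_contra hcon
    push Not at hcon
    exact hy0 (funext hcon)
  have hpos : 0 < |y j0| := abs_pos.2 hj0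
  obtain ⟨N, hN⟩ := small_tail hU hT hy (half_pos hpos)
  have hj0N : j0 < N := by
    by_contra hcon
    push Not at hcon
    have := hN j0 hcon
    linarith
  obtain ⟨t, htm, ht⟩ := (range N).exists_max_image (fun j => |y j|) ⟨j0, mem_range.2 hj0N⟩
  have hmax : ∀ j, |y j| ≤ |y t| := by
    intro j
    rcases lt_or_ge j N with h | h
    · exact ht j (mem_range.2 h)
    · have h1 := hN j h
      have h2 := ht j0 (mem_range.2 hj0N)
      linarith
  have htpos : 0 < |y t| := lt_of_lt_of_le hpos (hmax j0)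
  have htM : M ≤ t := by
    by_contra hcon
    push Not at hcon
    rw [hyM t hcon] at htpos
    simp at htpos
  refine ⟨(|y t|)⁻¹ • y, Z.smul_mem _ hy, fun j hj => ?_, fun j => ?_, t, htM, ?_⟩
  · rw [Pi.smul_apply, hyM j hj, smul_zero]
  · rw [Pi.smul_apply, smul_eq_mul, abs_mul, abs_inv, abs_abs]
    rw [inv_mul_le_iff₀ htpos, mul_one]
    exact hmax j
  · rw [Pi.smul_apply, smul_eq_mul, abs_mul, abs_inv, abs_abs]
    exact inv_mul_cancel₀ htpos.ne'

theorem humps (hU : S_UNI) {Z : Submodule ℝ (ℕ → ℝ)} {n : ℕ} (hZ : ¬ FiniteDimensional ℝ Z)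
    (hT : Tails Z n) (N p : ℕ) :
    ∃ z ∈ Z, (∀ j < N, z j = 0) ∧ (∀ j, |z j| ≤ 2) ∧
      ∃ T : Finset ℕ, T.card = p ∧ (∀ t ∈ T, N ≤ t) ∧ ∀ t ∈ T, 1 ≤ |z t| := by
  induction p with
  | zero => exact ⟨0, Z.zero_mem, fun _ _ => rfl, fun j => by simp, ∅, by simp, by simp, by simp⟩
  | succ p ih =>
    obtain ⟨z, hz, hzN, hz2, T, hTc, hTN, hT1⟩ := ih
    obtain ⟨M0, hM0⟩ := small_tail hU hT hz one_pos
    set M := max (max N M0) (T.sup id + 1) with hM
    have hMN : N ≤ M := (le_max_left _ _).trans (le_max_left _ _)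
    have hMM0 : M0 ≤ M := (le_max_right _ _).trans (le_max_left _ _)
    have hMT : ∀ t ∈ T, t < M := fun t ht => by
      have h1 : t ≤ T.sup id := Finset.le_sup (f := id) ht
      have h2 : T.sup id + 1 ≤ M := le_max_right _ _
      omega
    obtain ⟨y, hy, hyM, hy1, s, hsM, hs1⟩ := exists_peak hU hZ hT M
    -- the sign
    obtain ⟨σ, hσ, hσz⟩ : ∃ σ : ℝ, |σ| = 1 ∧ 1 ≤ |z s + σ * y s| := by
      have key : ∀ a b : ℝ, |b| = 1 → 1 ≤ |a + b| ∨ 1 ≤ |a - b| := by
        intro a b hb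
        by_contra hcon
        push Not at hcon
        obtain ⟨h1, h2⟩ := hcon
        have h3 : |2 * b| < 2 := by
          have e : 2 * b = (a + b) - (a - b) := by ring
          rw [e]
          calc |(a + b) - (a - b)| ≤ |a + b| + |a - b| := abs_sub _ _
            _ < 2 := by linarith
        rw [abs_mul, hb] at h3
        norm_num at h3
      rcases key (z s) (y s) hs1 with h | h
      · exact ⟨1, by norm_num, by rwa [one_mul]⟩
      · refine ⟨-1, by norm_num, ?_⟩
        have e : z s + -1 * y s = z s - y s := by ring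
        rwa [e]
    have hsT : s ∉ T := fun h => absurd (hMT s h) (not_lt.2 hsM)
    refine ⟨z + σ • y, Z.add_mem hz (Z.smul_mem _ hy), fun j hj => ?_, fun j => ?_, insert s T, ?_, ?_, ?_⟩
    · rw [Pi.add_apply, Pi.smul_apply, hzN j hj, hyM j (by omega), smul_zero, add_zero]
    · rw [Pi.add_apply, Pi.smul_apply, smul_eq_mul]
      rcases lt_or_ge j M with h | h
      · rw [hyM j h, mul_zero, add_zero]; exact hz2 j
      · have h1 := hM0 j (hMM0.trans h)
        have h2 : |σ * y j| ≤ 1 := by rw [abs_mul, hσ, one_mul]; exact hy1 j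
        calc |z j + σ * y j| ≤ |z j| + |σ * y j| := abs_add_le _ _
          _ ≤ 2 := by linarith
    · rw [card_insert_of_notMem hsT, hTc]
    · intro t ht
      rcases mem_insert.1 ht with rfl | ht
      · omega
      · exact hTN t ht
    · intro t ht
      rw [Pi.add_apply, Pi.smul_apply, smul_eq_mul]
      rcases mem_insert.1 ht with rfl | ht
      · exact hσz
      · rw [hyM t (hMT t ht), mul_zero, add_zero]; exact hT1 t ht

theorem t_BASE : S_BASE := by
  intro hU hH Z n C hZ hC hT hD ε hε N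
  obtain ⟨p, hp⟩ := exists_nat_gt (max 1 (2 / ε))
  have hp1 : (1 : ℝ) < p := (le_max_left _ _).trans_lt hp
  have hp2 : 2 / ε < p := (le_max_right _ _).trans_lt hp
  obtain ⟨z, hz, hzN, hz2, T, hTc, hTN, hT1⟩ := humps hU hZ hT (max N p) p
  have hTmem : T ∈ Sch (n + 1) := many_mem hU n T fun t ht => by
    have := hTN t ht
    rw [hTc]
    exact (le_max_right _ _).trans this
  have hTsum : (p : ℝ) ≤ ∑ j ∈ T, |z j| := by
    calc (p : ℝ) = ∑ j ∈ T, (1 : ℝ) := by rw [sum_const, hTc]; simp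
      _ ≤ _ := sum_le_sum hT1
  -- boundedness
  obtain ⟨N0, hN0⟩ := hT z hz 1 one_pos
  set S : Set ℝ := {r | ∃ F ∈ Sch (n + 1), r = ∑ j ∈ F, |z j|} with hS
  have hbdd : BddAbove S := by
    refine ⟨(∑ j ∈ range N0, |z j|) + 1, ?_⟩
    rintro r ⟨F, hF, rfl⟩
    rw [← Finset.sum_filter_add_sum_filter_not F (fun j => j < N0)]
    apply add_le_add
    · apply sum_le_sum_of_subset_of_nonneg
      · intro j hj
        rw [mem_filter] at hj
        exact mem_range.2 hj.2
      · intro j _ _; exact abs_nonneg _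
    · apply hN0
      · exact hH (n + 1) F _ hF (filter_subset _ _)
      · intro a ha
        rw [mem_filter] at ha
        exact not_lt.1 ha.2
  have hTS : (∑ j ∈ T, |z j|) ∈ S := ⟨T, hTmem, rfl⟩
  set s := sSup S with hs
  have hps : (p : ℝ) ≤ s := hTsum.trans (le_csSup hbdd hTS)
  have hs0 : 0 < s := by linarith
  obtain ⟨r, ⟨F0, hF0, rfl⟩, hr⟩ := exists_lt_of_lt_csSup ⟨_, hTS⟩ (half_lt_self hs0)
  have hsum : ∀ F : Finset ℕ, ∑ j ∈ F, |(s⁻¹ • z) j| = s⁻¹ * ∑ j ∈ F, |z j| := by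
    intro F
    rw [mul_sum]
    apply sum_congr rfl
    intro j _
    rw [Pi.smul_apply, smul_eq_mul, abs_mul, abs_of_pos (inv_pos.2 hs0)]
  refine ⟨s⁻¹ • z, Z.smul_mem _ hz, fun j hj => ?_, fun F hF => ?_, ⟨F0, hF0, ?_⟩, fun F hF => ?_⟩
  · rw [Pi.smul_apply, hzN j (lt_of_lt_of_le hj (le_max_left _ _)), smul_zero]
  · rw [hsum, inv_mul_le_iff₀ hs0, mul_one]
    exact le_csSup hbdd ⟨F, hF, rfl⟩
  · rw [hsum, ← div_eq_inv_mul, le_div_iff₀ hs0]
    linarith
  · rw [hsum]
    have h2 : ∑ j ∈ F, |z j| ≤ 2 := by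
      have hc : F.card ≤ 1 := hF
      rcases Finset.card_le_one_iff_subset_singleton.1 hc with ⟨a, ha⟩
      calc ∑ j ∈ F, |z j| ≤ ∑ j ∈ ({a} : Finset ℕ), |z j| :=
            sum_le_sum_of_subset_of_nonneg ha fun j _ _ => abs_nonneg _
        _ = |z a| := sum_singleton _ _
        _ ≤ 2 := hz2 a
    rw [← div_eq_inv_mul, div_le_iff₀ hs0]
    have h3 : 2 ≤ ε * p := by
      have := (div_lt_iff₀ hε).1 hp2
      linarith
    have h4 : ε * p ≤ ε * s := mul_le_mul_of_nonneg_left hps hε.le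
    linarith

end Pool.Agent.X192.SS
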